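import Pool.Agent.helper36.LT.ArtinMain
import Pool.Agent.helper50.LT.GLdir

set_option autoImplicit false

/-!
# Artin groups of large type satisfy the Farrell-Jones conjecture

`FJClosed P` says that the class `P` of groups has inheritance properties which are known for the
class of Farrell-Jones groups. The theorem says that such a class contains every Artin group of
large type: arbitrary set of generators, all labels in `{3, 4, …, ∞}`.

Outline of the proof. The cosets of the subgroups generated by at most two standard generators make
the Artin group `A` a simply connected chamber system (chambers are the group elements) whose rank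
two residues have girth at least six; its realisation is a 2-complex of non-positive curvature. The
homomorphism which sends a generator `s` to twice the transvection `x ↦ x + ω(e_s, x) e_s`, `ω`
skew-symmetric with `ω(e_s, e_t) = ± 2 cos (π / m_st)`, is injective on the subgroups generated by
two generators. So it suffices to prove a general theorem: if `G` acts on a simply connected chamber
system of large type and `f : G → Q`, `Q` in the class, is injective on the stabilisers of
chambers, panels and rank two residues, then `G` is in the class. By the extension property and
colimits one can assume that `Q` is infinite cyclic and that there are finitely many orbits of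
chambers. For a suitable `m` let `N` be the subgroup generated by the elements of the stabilisers
which are mapped to multiples of `m`. The quotient of the chamber system by `N` is again simply
connected and of large type, and `G/N` acts properly on it. The breadth first search in a simply
connected chamber system of large type is described explicitly, and it yields, by discrete Morse
theory, an action of `N` on a tree whose stabilisers are mapped injectively to `ℤ`, so that `N` acts
properly on the product of a tree and a line. The extension property gives the result.
-/

namespace Pool.Agent.Results.MP_490288_al.LargeTypeArtin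

open Pool.Agent.helper34 Pool.Agent.helper36.LT Matrix

/-- A class of (discrete) groups with known properties of the class of Farrell-Jones groups: it
contains the abelian groups, the arithmetic groups `GL_n(ℤ[1/N])` and the groups acting properly
and cocompactly on 2-dimensional CAT(0) simplicial complexes, it is closed under subgroups,
overgroups of finite index and colimits of directed systems with arbitrary structure maps, and it
has the extension property. -/
structure FJClosed (P : ∀ (G : Type) [Group G], Prop) : Prop where
  /-- abelian groups -/
  abelian : ∀ (G : Type) [CommGroup G], P G
  /-- the `S`-arithmetic groups `GL_n(ℤ[1/N])` -/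
  arithmetic : ∀ n N : ℕ, N ≠ 0 → P (GL (Fin n) (Localization.Away (N : ℤ)))
  /-- groups acting properly and cocompactly on 2-dimensional CAT(0) simplicial complexes: simply
  connected, piecewise Euclidean, with the link condition -/
  catZero : ∀ (G V : Type) [Group G] [MulAction G V] (X : FJ2.Complex2 V) (len : V → V → ℝ),
    FJ2.SimplyConnected X → FJ2.NPC X len → FJ2.ActsProperly G X len → FJ2.Cocompact G X → P G
  /-- subgroups -/
  subgroup : ∀ (G : Type) [Group G], P G → ∀ H : Subgroup G, P H
  /-- overgroups of finite index -/
  overgroup : ∀ (G : Type) [Group G] (H : Subgroup G), H.FiniteIndex → P H → P G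
  /-- directed colimits: `L` with the maps `φ i` is a colimit of the directed system `(G, f)` when
  the `φ i` are compatible with the `f i j`, jointly surjective, and an element of `G i` dies in
  `L` only if it dies in some `G j`. -/
  colim : ∀ (ι : Type) [Preorder ι] [Nonempty ι] [IsDirectedOrder ι]
    (G : ι → Type) [∀ i, Group (G i)] (f : ∀ i j, i ≤ j → G i →* G j)
    (L : Type) [Group L] (φ : ∀ i, G i →* L),
    (∀ i x, f i i le_rfl x = x) →
    (∀ i j k (hij : i ≤ j) (hjk : j ≤ k) x, f j k hjk (f i j hij x) = f i k (hij.trans hjk) x) →
    (∀ i j (h : i ≤ j) x, φ j (f i j h x) = φ i x) →
    (∀ y : L, ∃ i x, φ i x = y) →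
    (∀ i x, φ i x = 1 → ∃ j, ∃ h : i ≤ j, f i j h x = 1) →
    (∀ i, P (G i)) → P L
  /-- the extension property: if `Q` and the preimages of all virtually cyclic subgroups of `Q`
  are in the class, then the source of the homomorphism is in the class -/
  extension : ∀ (G Q : Type) [Group G] [Group Q] (f : G →* Q), P Q →
    (∀ C : Subgroup Q, (∃ Z : Subgroup C, Z.FiniteIndex ∧ IsCyclic Z) → P (C.comap f)) → P G

/-- the alternating product `a b a b …` with `n` factors -/
def alternating {G : Type} [Group G] (a b : G) : ℕ → G
  | 0 => 1
  | n + 1 => a * alternating b a n

/-- The Artin group of a Coxeter matrix `M`: the generators are the elements of `S`, and the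
relations say that the alternating products `s t s …` and `t s t …` with `M s t` factors are equal
(no relation if `M s t = 0`, which stands for `∞`). -/
def ArtinGroup {S : Type} (M : CoxeterMatrix S) : Type :=
  PresentedGroup {x : FreeGroup S | ∃ s t : S,
    x = alternating (FreeGroup.of s) (FreeGroup.of t) (M s t) *
      (alternating (FreeGroup.of t) (FreeGroup.of s) (M s t))⁻¹}

instance {S : Type} (M : CoxeterMatrix S) : Group (ArtinGroup M) :=
  inferInstanceAs (Group (PresentedGroup _))

/-- large type: all labels of pairs of different generators are at least `3` or infinite -/
def LargeType {S : Type} (M : CoxeterMatrix S) : Prop :=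
  ∀ s t : S, s ≠ t → M s t = 0 ∨ 3 ≤ M s t

theorem alt_eq {G : Type} [Group G] (a b : G) (n : ℕ) : alternating a b n = alt a b n := by
  induction n generalizing a b with
  | zero => rfl
  | succ n ih =>
    show a * alternating b a n = a * alt b a n
    rw [ih]

theorem closed {P : ∀ (G : Type) [Group G], Prop} (hP : FJClosed P) : Closed P where
  cat := hP.catZero
  colim := hP.colim
  comm := hP.abelian
  subgroup := hP.subgroup
  overgroup := hP.overgroup
  extension := hP.extension

/-- Let `P` be a class of groups with the properties `FJClosed` of the class of Farrell-Jones
groups. Then `P` contains every Artin group of large type, on an arbitrary set of generators. -/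
theorem result (P : ∀ (G : Type) [Group G], Prop) (hP : FJClosed P) (S : Type)
    (M : CoxeterMatrix S) (hM : LargeType M) : P (ArtinGroup M) := by
  have h2 : ∀ s t, M.M s t ≠ 2 := by
    intro s t h
    by_cases hst : s = t
    · subst hst
      rw [M.diagonal] at h
      exact absurd h (by decide)
    · have h3 : M.M s t = 0 ∨ 3 ≤ M.M s t := hM s t hst
      omega
  have h4 := artin_mem (closed hP)
    (fun n K => Pool.Agent.helper50.LT.gl_numberField_of_arith (closed hP) hP.arithmetic n K) S M h2
  have h5 : {x : FreeGroup S | ∃ s t : S,
      x = alternating (FreeGroup.of s) (FreeGroup.of t) (M s t) *
        (alternating (FreeGroup.of t) (FreeGroup.of s) (M s t))⁻¹} = artinRels M := by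
    ext x
    constructor
    · rintro ⟨s, t, rfl⟩
      exact ⟨(s, t), by rw [alt_eq, alt_eq]⟩
    · rintro ⟨⟨s, t⟩, rfl⟩
      exact ⟨s, t, by rw [alt_eq, alt_eq]⟩
  have h6 : ∀ (R R' : Set (FreeGroup S)), R = R' → P (PresentedGroup R') → P (PresentedGroup R) := by
    rintro R R' rfl h
    exact h
  exact h6 _ _ h5 h4

end Pool.Agent.Results.MP_490288_al.LargeTypeArtin
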